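import Mathlib
import Pool.Agent.NPC.Dec
import Pool.Agent.H671R2.PolyAuto

/-!
# MP_d065a3_lc: a deterministic construction of sets forcing small admissible subsets

Let `q` be the first prime with `4 n ≤ q ^ 3`. The set `S` consists of the numbers `m` in
`[2n, 4n)` with base `q` digits `m = x + q y + q² z` such that `z ≡ x y` modulo `q`.
-/

set_option autoImplicit false

namespace Pool.Agent.Results.MP_d065a3_lc.Deterministic

open Finset Pool.Agent.NPC

/-- `A` is admissible with respect to `S`: no sum of two distinct elements of `A` is in `S`. -/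
def Admissible (S A : Finset ℕ) : Prop := ∀ a ∈ A, ∀ b ∈ A, a ≠ b → a + b ∉ S

/-! ### The counting argument -/

section count
variable {q : ℕ}

/-- `u + b`, shifted, lies on the surface `z = x y` -/
def Rel (h0 h1 : ZMod q) (u b : ZMod q × ZMod q × ZMod q) : Prop :=
  u.2.2 + b.2.2 + h1 = (u.1 + b.1) * (u.2.1 + b.2.1 + h0)

instance (h0 h1 : ZMod q) (u b : ZMod q × ZMod q × ZMod q) : Decidable (Rel h0 h1 u b) := by
  unfold Rel; infer_instance

variable [Fact q.Prime]

theorem card_rel (h0 h1 : ZMod q) (b : ZMod q × ZMod q × ZMod q) :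
    (univ.filter fun u => Rel h0 h1 u b).card = q ^ 2 := by
  have h : (univ.filter fun u => Rel h0 h1 u b).card = (univ : Finset (ZMod q × ZMod q)).card := by
    refine Finset.card_bij (fun u _ => (u.1, u.2.1)) (fun _ _ => Finset.mem_univ _) ?_ ?_
    · rintro ⟨x, y, z⟩ hu ⟨x', y', z'⟩ hu' h
      have k := (Finset.mem_filter.1 hu).2
      have k' := (Finset.mem_filter.1 hu').2
      unfold Rel at k k'
      simp only [Prod.mk.injEq] at h k k'
      obtain ⟨rfl, rfl⟩ := h
      rw [← k'] at k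
      have : z = z' := by linear_combination k
      rw [this]
    · rintro ⟨x, y⟩ _
      refine ⟨(x, y, (x + b.1) * (y + b.2.1 + h0) - b.2.2 - h1), ?_, rfl⟩
      rw [Finset.mem_filter]
      refine ⟨Finset.mem_univ _, ?_⟩
      unfold Rel
      ring
  rw [h, Finset.card_univ, Fintype.card_prod, ZMod.card, sq]

theorem card_rel_two (h0 h1 : ZMod q) (b b' : ZMod q × ZMod q × ZMod q) (hb : b ≠ b') :
    (univ.filter fun u => Rel h0 h1 u b ∧ Rel h0 h1 u b').card ≤ q := by
  have hcard : (univ : Finset (ZMod q)).card = q := by rw [Finset.card_univ, ZMod.card]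
  obtain ⟨b0, b1, b2⟩ := b
  obtain ⟨c0, c1, c2⟩ := b'
  by_cases h : b0 = c0
  · by_cases h' : b1 = c1
    · subst h; subst h'
      have : (univ.filter fun u => Rel h0 h1 u (b0, b1, b2) ∧ Rel h0 h1 u (b0, b1, c2)) = ∅ := by
        rw [Finset.eq_empty_iff_forall_notMem]
        rintro ⟨x, y, z⟩ hu
        have k := (Finset.mem_filter.1 hu).2
        unfold Rel at k
        simp only at k
        apply hb
        have : b2 = c2 := by linear_combination k.1 - k.2
        rw [this]
      rw [this]; simp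
    · conv_rhs => rw [← hcard]
      refine Finset.card_le_card_of_injOn (fun u => u.2.1) (fun _ _ => Finset.mem_univ _) ?_
      rintro ⟨x, y, z⟩ hu ⟨x', y', z'⟩ hu' hyy
      have k := (Finset.mem_filter.1 (Finset.mem_coe.1 hu)).2
      have k' := (Finset.mem_filter.1 (Finset.mem_coe.1 hu')).2
      unfold Rel at k k'
      simp only at hyy k k'
      subst h; subst hyy
      have hne : b1 - c1 ≠ 0 := sub_ne_zero.2 h'
      have hx : x = x' := by
        have : (x - x') * (b1 - c1) = 0 := by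
          linear_combination (k'.1 - k'.2) - (k.1 - k.2)
        rcases mul_eq_zero.1 this with h2 | h2
        · exact sub_eq_zero.1 h2
        · exact absurd h2 hne
      subst hx
      have hz : z = z' := by linear_combination k.1 - k'.1
      rw [hz]
  · conv_rhs => rw [← hcard]
    refine Finset.card_le_card_of_injOn (fun u => u.1) (fun _ _ => Finset.mem_univ _) ?_
    rintro ⟨x, y, z⟩ hu ⟨x', y', z'⟩ hu' hxx
    have k := (Finset.mem_filter.1 (Finset.mem_coe.1 hu)).2
    have k' := (Finset.mem_filter.1 (Finset.mem_coe.1 hu')).2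
    unfold Rel at k k'
    simp only at hxx k k'
    subst hxx
    have hne : b0 - c0 ≠ 0 := sub_ne_zero.2 h
    have hy : y = y' := by
      have : (y - y') * (b0 - c0) = 0 := by
        linear_combination (k'.1 - k'.2) - (k.1 - k.2)
      rcases mul_eq_zero.1 this with h2 | h2
      · exact sub_eq_zero.1 h2
      · exact absurd h2 hne
    subst hy
    have hz : z = z' := by linear_combination k.1 - k'.1
    rw [hz]

/-- the core estimate -/
theorem core (h0 h1 : ZMod q) (A : Finset (ZMod q × ZMod q × ZMod q))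
    (hA : ∀ a ∈ A, ∀ b ∈ A, a ≠ b → ¬ Rel h0 h1 a b) : A.card ≤ q ^ 2 + q := by
  by_contra hcon
  push Not at hcon
  obtain ⟨N, hN⟩ : ∃ N : ZMod q × ZMod q × ZMod q → ℝ,
      N = fun u => ∑ b ∈ A, if Rel h0 h1 u b then 1 else 0 := ⟨_, rfl⟩
  have hq0 : 0 < (q : ℝ) := Nat.cast_pos.2 (Fact.out : q.Prime).pos
  have s1 : ∑ u, N u = A.card * (q : ℝ) ^ 2 := by
    rw [hN, Finset.sum_comm]
    have : ∀ b ∈ A, ∑ u, (if Rel h0 h1 u b then (1 : ℝ) else 0) = (q : ℝ) ^ 2 := by
      intro b _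
      rw [Finset.sum_boole, card_rel]; push_cast; ring
    rw [Finset.sum_congr rfl this, Finset.sum_const, nsmul_eq_mul]
  have s2 : ∑ u, N u ^ 2 ≤ A.card * (q : ℝ) ^ 2 + (A.card : ℝ) ^ 2 * q := by
    have e : ∀ u, N u ^ 2 = ∑ b ∈ A, ∑ b' ∈ A,
        (if Rel h0 h1 u b ∧ Rel h0 h1 u b' then (1 : ℝ) else 0) := by
      intro u
      rw [hN, sq, Finset.sum_mul_sum]
      refine Finset.sum_congr rfl fun b _ => Finset.sum_congr rfl fun b' _ => ?_
      by_cases k1 : Rel h0 h1 u b <;> by_cases k2 : Rel h0 h1 u b' <;> simp [k1, k2]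
    simp only [e]
    rw [Finset.sum_comm]
    have : ∀ b ∈ A, ∑ u, ∑ b' ∈ A, (if Rel h0 h1 u b ∧ Rel h0 h1 u b' then (1 : ℝ) else 0) ≤
        (q : ℝ) ^ 2 + A.card * q := by
      intro b hb
      rw [Finset.sum_comm]
      have h2 : ∀ b' ∈ A, ∑ u, (if Rel h0 h1 u b ∧ Rel h0 h1 u b' then (1 : ℝ) else 0) ≤
          (if b' = b then (q : ℝ) ^ 2 else 0) + q := by
        intro b' _
        rw [Finset.sum_boole]
        by_cases hbb : b' = b
        · rw [if_pos hbb, hbb]
          simp only [and_self]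
          rw [card_rel]; push_cast; linarith
        · rw [if_neg hbb, zero_add]
          exact_mod_cast card_rel_two h0 h1 b b' (fun h => hbb h.symm)
      refine (Finset.sum_le_sum h2).trans ?_
      rw [Finset.sum_add_distrib, Finset.sum_ite_eq', if_pos hb, Finset.sum_const, nsmul_eq_mul]
    refine (Finset.sum_le_sum this).trans ?_
    rw [Finset.sum_const, nsmul_eq_mul]
    apply le_of_eq; ring
  have hN1 : ∀ u ∈ A, N u ≤ 1 := by
    intro u hu
    rw [hN]
    refine (Finset.sum_le_sum (g := fun b => if b = u then (1 : ℝ) else 0) ?_).trans ?_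
    · intro b hb
      by_cases h : b = u
      · rw [if_pos h]; split_ifs <;> norm_num
      · rw [if_neg h, if_neg (hA u hu b hb (fun h' => h h'.symm))]
    · rw [Finset.sum_ite_eq', if_pos hu]
  have hc : (q : ℝ) ^ 2 + q < A.card := by exact_mod_cast hcon
  have lower : (A.card : ℝ) * (A.card - q) ^ 2 ≤ ∑ u, (q * N u - A.card) ^ 2 := by
    have h2 : ∑ u ∈ A, (q * N u - A.card) ^ 2 ≤ ∑ u, (q * N u - A.card) ^ 2 :=
      Finset.sum_le_sum_of_subset_of_nonneg (Finset.subset_univ _) (fun _ _ _ => sq_nonneg _)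
    refine le_trans ?_ h2
    rw [← nsmul_eq_mul, ← Finset.sum_const]
    refine Finset.sum_le_sum fun u hu => ?_
    have h3 := hN1 u hu
    have h4 : q * N u ≤ q := by nlinarith
    nlinarith [sq_nonneg (q : ℝ)]
  have upper : ∑ u, (q * N u - A.card) ^ 2 ≤ (A.card : ℝ) * (q : ℝ) ^ 4 := by
    have e : ∑ u, (q * N u - A.card) ^ 2 = (q : ℝ) ^ 2 * ∑ u, N u ^ 2 -
        2 * q * A.card * ∑ u, N u + (q : ℝ) ^ 3 * (A.card : ℝ) ^ 2 := by
      have e1 : ∀ u, (q * N u - A.card) ^ 2 = (q : ℝ) ^ 2 * N u ^ 2 - 2 * q * A.card * N u +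
          (A.card : ℝ) ^ 2 := fun u => by ring
      simp only [e1]
      rw [Finset.sum_add_distrib, Finset.sum_sub_distrib, ← Finset.mul_sum, ← Finset.mul_sum,
        Finset.sum_const, nsmul_eq_mul, Finset.card_univ, Fintype.card_prod, Fintype.card_prod,
        ZMod.card]
      push_cast; ring
    rw [e, s1]
    have : (q : ℝ) ^ 2 * ∑ u, N u ^ 2 ≤ (q : ℝ) ^ 2 * (A.card * (q : ℝ) ^ 2 + (A.card : ℝ) ^ 2 * q) :=
      mul_le_mul_of_nonneg_left s2 (by positivity)
    nlinarith
  have hAc : 0 < (A.card : ℝ) := by nlinarith [sq_nonneg (q : ℝ)]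
  have h5 : ((A.card : ℝ) - q) ^ 2 ≤ (q : ℝ) ^ 4 := by
    have := lower.trans upper
    exact le_of_mul_le_mul_left this hAc
  have h6 : (q : ℝ) ^ 2 < A.card - q := by linarith
  nlinarith [sq_nonneg (q : ℝ), sq_nonneg ((A.card : ℝ) - q)]

end count

/-! ### Digits -/

/-- the set of the construction -/
def good (q m : ℕ) : Prop := (m / q / q) % q = ((m % q) * ((m / q) % q)) % q

instance (q m : ℕ) : Decidable (good q m) := by unfold good; infer_instance

theorem good_iff (q m : ℕ) : good q m ↔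
    (((m / q / q : ℕ) : ZMod q)) = (m : ZMod q) * ((m / q : ℕ) : ZMod q) := by
  have h : (m : ZMod q) * ((m / q : ℕ) : ZMod q) = (((m % q) * ((m / q) % q) : ℕ) : ZMod q) := by
    push_cast
    rw [ZMod.natCast_mod, ZMod.natCast_mod]
  rw [h, ZMod.natCast_eq_natCast_iff]
  rfl

/-- carries -/
def c0 (q a : ℕ) : ℕ := if q ≤ 2 * (a % q) then 1 else 0

/-- carries -/
def c1 (q a : ℕ) : ℕ := if q ≤ 2 * (a / q % q) + c0 q a then 1 else 0

theorem c0_le (q a : ℕ) : c0 q a ≤ 1 := by unfold c0; split_ifs <;> omega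

theorem div_add_carry {q x y h c : ℕ} (hq : 0 < q) (hc : (x % q + y % q + h) / q = c) :
    (x + y + h) / q = x / q + y / q + c := by
  have h1 := Nat.div_add_mod x q
  have h2 := Nat.div_add_mod y q
  have h3 : x + y + h = (x % q + y % q + h) + q * (x / q + y / q) := by
    conv_lhs => rw [← h1, ← h2]
    ring
  rw [h3, Nat.add_mul_div_left _ _ hq, hc]
  ring

theorem carry_aux {q x y h h' : ℕ} (hx : x < q) (hy : y < q) (hh : h ≤ 1)
    (h1 : h' = if q ≤ 2 * x + h then 1 else 0) (h2 : h' = if q ≤ 2 * y + h then 1 else 0) :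
    (x + y + h) / q = h' := by
  by_cases h3 : q ≤ 2 * x + h
  · rw [if_pos h3] at h1
    by_cases h4 : q ≤ 2 * y + h
    · rw [h1]
      exact Nat.div_eq_of_lt_le (by omega) (by omega)
    · rw [if_neg h4] at h2; omega
  · rw [if_neg h3] at h1
    by_cases h4 : q ≤ 2 * y + h
    · rw [if_pos h4] at h2; omega
    · rw [h1]
      exact Nat.div_eq_of_lt (by omega)

theorem carry0 {q a b : ℕ} (hq : 0 < q) (h : c0 q a = c0 q b) :
    (a + b) / q = a / q + b / q + c0 q a := by
  have := div_add_carry (q := q) (x := a) (y := b) (h := 0) (c := c0 q a) hq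
    (carry_aux (Nat.mod_lt a hq) (Nat.mod_lt b hq) (by norm_num) rfl h)
  simpa using this

theorem carry1 {q a b : ℕ} (hq : 0 < q) (h : c0 q a = c0 q b) (h' : c1 q a = c1 q b) :
    (a + b) / q / q = a / q / q + b / q / q + c1 q a := by
  rw [carry0 hq h]
  refine div_add_carry hq (carry_aux (Nat.mod_lt _ hq) (Nat.mod_lt _ hq) (c0_le q a) rfl ?_)
  rw [h', c1, h]

/-- digits -/
def dig (q a : ℕ) : ZMod q × ZMod q × ZMod q := ((a : ZMod q), ((a / q : ℕ) : ZMod q), ((a / q / q : ℕ) : ZMod q))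

theorem dig_inj {q a b : ℕ} (hq : 0 < q) (ha : a < q ^ 3) (hb : b < q ^ 3) (h : dig q a = dig q b) :
    a = b := by
  unfold dig at h
  simp only [Prod.mk.injEq, ZMod.natCast_eq_natCast_iff] at h
  obtain ⟨h0, h1, h2⟩ := h
  have h0' : a % q = b % q := h0
  have h1' : a / q % q = b / q % q := h1
  have h2' : a / q / q % q = b / q / q % q := h2
  have lt : ∀ x, x < q ^ 3 → x / q / q < q := by
    intro x hx
    rw [Nat.div_lt_iff_lt_mul hq, Nat.div_lt_iff_lt_mul hq]
    calc x < q ^ 3 := hx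
      _ = q * q * q := by ring
  rw [Nat.mod_eq_of_lt (lt a ha), Nat.mod_eq_of_lt (lt b hb)] at h2'
  have e1 : a / q = b / q := by
    rw [← Nat.div_add_mod (a / q) q, ← Nat.div_add_mod (b / q) q, h2', h1']
  rw [← Nat.div_add_mod a q, ← Nat.div_add_mod b q, e1, h0']

theorem rel_of_good {q a b : ℕ} (hq : 0 < q) (h : c0 q a = c0 q b) (h' : c1 q a = c1 q b)
    (hr : Rel (c0 q a : ZMod q) (c1 q a : ZMod q) (dig q a) (dig q b)) : good q (a + b) := by
  rw [good_iff, carry1 hq h h', carry0 hq h]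
  unfold Rel dig at hr
  push_cast
  exact hr

/-- the bound for admissible sets -/
theorem admissible_bound {q n : ℕ} (hq : q.Prime) (hn : 4 * n ≤ q ^ 3) {S A : Finset ℕ}
    (hS : ∀ m, 2 * n ≤ m → m < 4 * n → good q m → m ∈ S)
    (hA : ∀ a ∈ A, n ≤ a ∧ a < 2 * n) (hadm : Admissible S A) : A.card ≤ 8 * q ^ 2 := by
  have : Fact q.Prime := ⟨hq⟩
  have key : ∀ i j : ℕ, (A.filter fun a => c0 q a = i ∧ c1 q a = j).card ≤ q ^ 2 + q := by
    intro i j
    obtain ⟨B, hB⟩ : ∃ B, B = A.filter fun a => c0 q a = i ∧ c1 q a = j := ⟨_, rfl⟩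
    rw [← hB]
    have hBm : ∀ a ∈ B, a ∈ A ∧ c0 q a = i ∧ c1 q a = j := by
      intro a ha; rw [hB, Finset.mem_filter] at ha; exact ha
    have hinj : Set.InjOn (dig q) (B : Set ℕ) := by
      intro a ha b hb h
      have h1 := hA a (hBm a ha).1
      have h2 := hA b (hBm b hb).1
      exact dig_inj hq.pos (by omega) (by omega) h
    rw [← Finset.card_image_of_injOn hinj]
    refine core (i : ZMod q) (j : ZMod q) _ ?_
    intro u hu v hv huv hr
    obtain ⟨a, ha, rfl⟩ := Finset.mem_image.1 hu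
    obtain ⟨b, hb, rfl⟩ := Finset.mem_image.1 hv
    have hab : a ≠ b := by rintro rfl; exact huv rfl
    obtain ⟨a1, a2, a3⟩ := hBm a ha
    obtain ⟨b1, b2, b3⟩ := hBm b hb
    refine hadm a a1 b b1 hab (hS _ ?_ ?_ ?_)
    · have := hA a a1; have := hA b b1; omega
    · have := hA a a1; have := hA b b1; omega
    · refine rel_of_good hq.pos (a2.trans b2.symm) (a3.trans b3.symm) ?_
      rw [a2, a3]; exact hr
  have hcover : A ⊆ (A.filter fun a => c0 q a = 0 ∧ c1 q a = 0) ∪
      (A.filter fun a => c0 q a = 0 ∧ c1 q a = 1) ∪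
      (A.filter fun a => c0 q a = 1 ∧ c1 q a = 0) ∪
      (A.filter fun a => c0 q a = 1 ∧ c1 q a = 1) := by
    intro a ha
    have h0 : c0 q a = 0 ∨ c0 q a = 1 := by unfold c0; split_ifs <;> simp
    have h1 : c1 q a = 0 ∨ c1 q a = 1 := by unfold c1; split_ifs <;> simp
    simp only [Finset.mem_union, Finset.mem_filter]
    rcases h0 with h0 | h0 <;> rcases h1 with h1 | h1 <;> simp [ha, h0, h1]
  have h1 := Finset.card_le_card hcover
  have h2 := Finset.card_union_le ((A.filter fun a => c0 q a = 0 ∧ c1 q a = 0) ∪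
      (A.filter fun a => c0 q a = 0 ∧ c1 q a = 1) ∪
      (A.filter fun a => c0 q a = 1 ∧ c1 q a = 0)) (A.filter fun a => c0 q a = 1 ∧ c1 q a = 1)
  have h3 := Finset.card_union_le ((A.filter fun a => c0 q a = 0 ∧ c1 q a = 0) ∪
      (A.filter fun a => c0 q a = 0 ∧ c1 q a = 1)) (A.filter fun a => c0 q a = 1 ∧ c1 q a = 0)
  have h4 := Finset.card_union_le (A.filter fun a => c0 q a = 0 ∧ c1 q a = 0)
      (A.filter fun a => c0 q a = 0 ∧ c1 q a = 1)
  have k00 := key 0 0
  have k01 := key 0 1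
  have k10 := key 1 0
  have k11 := key 1 1
  have hqq : q ≤ q ^ 2 := by nlinarith [hq.one_lt]
  omega

/-- the bound for the set itself -/
theorem set_bound {q n : ℕ} (hq : q.Prime) (hn : 4 * n ≤ q ^ 3) {S : Finset ℕ}
    (hS : ∀ m ∈ S, m < 4 * n ∧ good q m) : S.card ≤ q ^ 2 := by
  have : Fact q.Prime := ⟨hq⟩
  have hcard : (univ : Finset (ZMod q × ZMod q)).card = q ^ 2 := by
    rw [Finset.card_univ, Fintype.card_prod, ZMod.card, sq]
  rw [← hcard]
  refine Finset.card_le_card_of_injOn (fun m => ((m : ZMod q), ((m / q : ℕ) : ZMod q)))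
    (fun _ _ => Finset.mem_univ _) ?_
  intro a ha b hb h
  have h1 := hS a ha
  have h2 := hS b hb
  refine dig_inj hq.pos (by omega) (by omega) ?_
  have g1 := (good_iff q a).1 h1.2
  have g2 := (good_iff q b).1 h2.2
  simp only [Prod.mk.injEq] at h
  unfold dig
  rw [g1, g2, h.1, h.2]

/-! ### The algorithm -/

/-- primality by trial division -/
def isPr (B q : ℕ) : Bool :=
  decide (2 ≤ q) && (List.range B).all fun d => decide (d < 2) || decide (q ≤ d) || decide (q % d ≠ 0)

theorem isPr_iff {B q : ℕ} (hq : q < B) : isPr B q = true ↔ q.Prime := by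
  unfold isPr
  rw [Bool.and_eq_true, decide_eq_true_iff, List.all_eq_true, Nat.prime_def_lt']
  constructor
  · rintro ⟨h1, h2⟩
    refine ⟨h1, fun m hm hmq hdvd => ?_⟩
    have := h2 m (List.mem_range.2 (by omega))
    simp only [Bool.or_eq_true, decide_eq_true_iff] at this
    rcases this with (h | h) | h
    · omega
    · omega
    · exact h (Nat.mod_eq_zero_of_dvd hdvd)
  · rintro ⟨h1, h2⟩
    refine ⟨h1, fun d _ => ?_⟩
    simp only [Bool.or_eq_true, decide_eq_true_iff]
    by_cases h3 : d < 2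
    · exact Or.inl (Or.inl h3)
    · by_cases h4 : q ≤ d
      · exact Or.inl (Or.inr h4)
      · refine Or.inr fun h => h2 d (by omega) (by omega) (Nat.dvd_of_mod_eq_zero h)

/-- the first prime with cube at least `4 n` -/
def firstPrime (n : ℕ) : ℕ :=
  (((List.range (8 * n + 1)).filter fun q => isPr (8 * n + 1) q && decide (4 * n ≤ q * q * q)).head?).getD 2

/-- the list of the elements of the set -/
def alg (x : List Bool) : List ℕ :=
  (List.range (4 * x.length)).filter fun m => decide (2 * x.length ≤ m) &&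
    decide ((m / firstPrime x.length / firstPrime x.length) % firstPrime x.length =
      ((m % firstPrime x.length) * ((m / firstPrime x.length) % firstPrime x.length)) %
        firstPrime x.length)

theorem poly_isPr {α : Type} [TEnc α] {B q : α → ℕ} (hB : UPoly B) (hq : Poly q) :
    Poly (fun a => isPr (B a) (q a)) := by
  have hr := hB.range
  unfold isPr
  fun_prop

theorem poly_firstPrime {α : Type} [TEnc α] {n : α → ℕ} (hn : UPoly n) :
    Poly (fun a => firstPrime (n a)) := by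
  have hB : UPoly (fun a => 8 * n a + 1) := ((UPoly.const 8).mul hn).add (UPoly.const 1)
  have hr := hB.range
  have hn' := hn.toPoly
  have h1 : Poly (fun p : α × ℕ => isPr (8 * n p.1 + 1) p.2) :=
    poly_isPr (B := fun p : α × ℕ => 8 * n p.1 + 1) (q := fun p => p.2)
      (hB.comp (Poly.fst Poly.id)) (Poly.snd Poly.id)
  have h2 : Poly (fun p : α × ℕ => decide (4 * n p.1 ≤ p.2 * p.2 * p.2)) := by fun_prop
  exact Poly.optGetD (Poly.head? (Poly.filter
    (p := fun a q => isPr (8 * n a + 1) q && decide (4 * n a ≤ q * q * q)) hr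
    (Poly.and h1 h2))) (g := fun _ => 2) (NPC.Poly.const 2)

theorem poly_alg : Poly alg := by
  have hl : UPoly (fun x : List Bool => x.length) := UPoly.length Poly.id
  have h4 : UPoly (fun x : List Bool => 4 * x.length) := (UPoly.const 4).mul hl
  have hr := h4.range
  have hq : Poly (fun p : List Bool × ℕ => firstPrime p.1.length) :=
    poly_firstPrime (n := fun p : List Bool × ℕ => p.1.length) (hl.comp (Poly.fst Poly.id))
  have hm : Poly (fun p : List Bool × ℕ => p.2) := Poly.snd Poly.id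
  have hx : Poly (fun p : List Bool × ℕ => p.1.length) := Poly.length (Poly.fst Poly.id)
  refine Poly.filter (p := fun x m => decide (2 * x.length ≤ m) &&
    decide ((m / firstPrime x.length / firstPrime x.length) % firstPrime x.length =
      ((m % firstPrime x.length) * ((m / firstPrime x.length) % firstPrime x.length)) %
        firstPrime x.length)) hr (Poly.and ?_ ?_)
  · fun_prop
  · fun_prop

/-! ### Correctness -/

theorem firstPrime_spec {n : ℕ} (hn : 1 ≤ n) : (firstPrime n).Prime ∧ 4 * n ≤ firstPrime n ^ 3 ∧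
    ∀ q, q.Prime → 4 * n ≤ q ^ 3 → firstPrime n ≤ q := by
  have hex : ∃ q, q.Prime ∧ 4 * n ≤ q ^ 3 := by
    obtain ⟨p, hp, hpp⟩ := Nat.exists_infinite_primes (4 * n)
    refine ⟨p, hpp, hp.trans ?_⟩
    calc p = p ^ 1 := (pow_one p).symm
      _ ≤ p ^ 3 := Nat.pow_le_pow_right hpp.pos (by norm_num)
  classical
  have hspec := Nat.find_spec hex
  have hmin : ∀ q, q.Prime → 4 * n ≤ q ^ 3 → Nat.find hex ≤ q := fun q h1 h2 =>
    Nat.find_min' hex ⟨h1, h2⟩
  -- Bertrand
  have hlt : Nat.find hex < 8 * n + 1 := by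
    obtain ⟨p, hp, h1, h2⟩ := Nat.exists_prime_lt_and_le_two_mul (4 * n) (by omega)
    have h3 : 4 * n ≤ p ^ 3 := by
      calc 4 * n ≤ p := h1.le
        _ = p ^ 1 := (pow_one p).symm
        _ ≤ p ^ 3 := Nat.pow_le_pow_right hp.pos (by norm_num)
    have := hmin p hp h3
    omega
  have key : firstPrime n = Nat.find hex := by
    unfold firstPrime
    rw [List.head?_filter]
    have : (List.range (8 * n + 1)).find? (fun q => isPr (8 * n + 1) q && decide (4 * n ≤ q * q * q)) =
        some (Nat.find hex) := by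
      rw [List.find?_range_eq_some]
      refine ⟨?_, List.mem_range.2 hlt, ?_⟩
      · rw [Bool.and_eq_true, isPr_iff hlt, decide_eq_true_iff]
        refine ⟨hspec.1, ?_⟩
        have h5 : Nat.find hex ^ 3 = Nat.find hex * Nat.find hex * Nat.find hex := by ring
        rw [← h5]
        exact hspec.2
      · intro j hj
        rw [Bool.not_eq_true', Bool.and_eq_false_iff]
        by_cases hp : j.Prime
        · right
          rw [decide_eq_false_iff_not]
          intro h
          have h5 : j ^ 3 = j * j * j := by ring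
          exact Nat.find_min hex hj ⟨hp, by rw [h5]; exact h⟩
        · left
          rw [← Bool.not_eq_true, isPr_iff (by omega)]
          exact hp
    rw [this]; rfl
  rw [key]
  exact ⟨hspec.1, hspec.2, hmin⟩

/-- the size of the prime -/
theorem firstPrime_le {n : ℕ} (hn : 2 ≤ n) :
    ((firstPrime n : ℕ) : ℝ) ^ 2 ≤ 36 * (n : ℝ) ^ (2 / 3 : ℝ) := by
  obtain ⟨_, _, hmin⟩ := firstPrime_spec (n := n) (by omega)
  -- the least `m` with `4 n ≤ m ^ 3`
  have hex : ∃ m, 4 * n ≤ m ^ 3 := ⟨4 * n, by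
    calc 4 * n = (4 * n) ^ 1 := (pow_one _).symm
      _ ≤ (4 * n) ^ 3 := Nat.pow_le_pow_right (by omega) (by norm_num)⟩
  classical
  obtain ⟨m, hm⟩ : ∃ m, m = Nat.find hex := ⟨_, rfl⟩
  have hm1 : 4 * n ≤ m ^ 3 := by rw [hm]; exact Nat.find_spec hex
  have hm0 : m ≠ 0 := by rintro rfl; simp at hm1; omega
  have hm2 : (m - 1) ^ 3 < 4 * n := by
    have := Nat.find_min hex (m := m - 1) (by omega)
    omega
  obtain ⟨p, hp, h1, h2⟩ := Nat.exists_prime_lt_and_le_two_mul m hm0
  have h3 : firstPrime n ≤ p := hmin p hp (hm1.trans (Nat.pow_le_pow_left h1.le 3))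
  obtain ⟨t, ht⟩ : ∃ t : ℝ, t = (n : ℝ) ^ (1 / 3 : ℝ) := ⟨_, rfl⟩
  have hn0 : (0 : ℝ) ≤ n := Nat.cast_nonneg n
  have ht0 : 0 ≤ t := by rw [ht]; positivity
  have ht3 : t ^ 3 = n := by
    rw [ht, ← Real.rpow_natCast, ← Real.rpow_mul hn0]; norm_num
  have ht2 : t ^ 2 = (n : ℝ) ^ (2 / 3 : ℝ) := by
    rw [ht, ← Real.rpow_natCast, ← Real.rpow_mul hn0]; norm_num
  have ht1 : 1 ≤ t := by
    by_contra h
    push Not at h
    have : t ^ 3 < 1 := by
      calc t ^ 3 ≤ t ^ 1 := pow_le_pow_of_le_one ht0 h.le (by norm_num)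
        _ < 1 := by rw [pow_one]; exact h
    rw [ht3] at this
    have : (2 : ℝ) ≤ n := by exact_mod_cast hn
    linarith
  have hmt : (m : ℝ) - 1 < 2 * t := by
    by_contra h
    push Not at h
    have h4 : (2 * t) ^ 3 ≤ ((m : ℝ) - 1) ^ 3 := pow_le_pow_left₀ (by positivity) h 3
    have h5 : ((m : ℝ) - 1) ^ 3 < 4 * n := by
      have h6 : (((m - 1 : ℕ) : ℝ)) ^ 3 < 4 * n := by exact_mod_cast hm2
      rwa [Nat.cast_sub (by omega), Nat.cast_one] at h6
    have h7 : (2 * t) ^ 3 = 8 * n := by rw [mul_pow, ht3]; norm_num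
    rw [h7] at h4
    nlinarith
  have hq : ((firstPrime n : ℕ) : ℝ) ≤ 6 * t := by
    have h4 : ((firstPrime n : ℕ) : ℝ) ≤ 2 * m := by exact_mod_cast h3.trans h2
    linarith
  rw [← ht2]
  have hq0 : (0 : ℝ) ≤ ((firstPrime n : ℕ) : ℝ) := Nat.cast_nonneg _
  nlinarith

theorem mem_alg {n m : ℕ} : m ∈ alg (List.replicate n true) ↔ m < 4 * n ∧ 2 * n ≤ m ∧
    good (firstPrime n) m := by
  unfold alg good
  rw [List.mem_filter, List.mem_range, Bool.and_eq_true, decide_eq_true_iff, decide_eq_true_iff,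
    List.length_replicate]

theorem log_bound {n : ℕ} (hn : 2 ≤ n) : (1 / 2 : ℝ) ≤ Real.log n ^ (2 / 3 : ℝ) := by
  have h1 : (0.6931471803 : ℝ) < Real.log 2 := Real.log_two_gt_d9
  have h2 : Real.log 2 ≤ Real.log n := Real.log_le_log (by norm_num) (by exact_mod_cast hn)
  have h3 : (1 / 2 : ℝ) ≤ Real.log n := by linarith
  calc (1 / 2 : ℝ) = (1 / 2 : ℝ) ^ (1 : ℝ) := (Real.rpow_one _).symm
    _ ≤ (1 / 2 : ℝ) ^ (2 / 3 : ℝ) :=
      Real.rpow_le_rpow_of_exponent_ge (by norm_num) (by norm_num) (by norm_num)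
    _ ≤ Real.log n ^ (2 / 3 : ℝ) := Real.rpow_le_rpow (by norm_num) h3 (by norm_num)

/-- **A deterministic construction.** There are a constant `C` and a polynomial-time algorithm
which, on the unary input `n ≥ 2`, lists a set `S ⊆ [2n, 4n)` with at most `C n^{2/3}` elements
(in particular at most `C n^{2/3} (ln n)^{2/3}`), such that every `A ⊆ [n, 2n)` which is
admissible with respect to `S` has at most `C n^{2/3}` elements (in particular at most
`C n^{2/3} (ln n)^{2/3}`). -/
theorem result : ∃ (C : ℝ) (F : List Bool → List Bool), PolyTime F ∧ ∀ n : ℕ, 2 ≤ n →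
    ∃ S : Finset ℕ, F (List.replicate n true) = bits (S.sort (· ≤ ·)) ∧
      (∀ s ∈ S, 2 * n ≤ s ∧ s < 4 * n) ∧
      (S.card : ℝ) ≤ C * (n : ℝ) ^ (2 / 3 : ℝ) * Real.log n ^ (2 / 3 : ℝ) ∧
      (S.card : ℝ) ≤ C * (n : ℝ) ^ (2 / 3 : ℝ) ∧
      ∀ A : Finset ℕ, (∀ a ∈ A, n ≤ a ∧ a < 2 * n) → Admissible S A →
        (A.card : ℝ) ≤ C * (n : ℝ) ^ (2 / 3 : ℝ) * Real.log n ^ (2 / 3 : ℝ) ∧
        (A.card : ℝ) ≤ C * (n : ℝ) ^ (2 / 3 : ℝ) := by
  refine ⟨576, fun x => bits (alg x), polyTime_bits poly_alg, fun n hn => ?_⟩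
  obtain ⟨hp, h4, _⟩ := firstPrime_spec (n := n) (by omega)
  have hq := firstPrime_le hn
  have hlog := log_bound hn
  have hn0 : (0 : ℝ) ≤ (n : ℝ) ^ (2 / 3 : ℝ) := by positivity
  have hmem : ∀ m, m ∈ (alg (List.replicate n true)).toFinset ↔ m < 4 * n ∧ 2 * n ≤ m ∧
      good (firstPrime n) m := by
    intro m; rw [List.mem_toFinset, mem_alg]
  have final : ∀ x : ℕ, x ≤ 8 * firstPrime n ^ 2 →
      (x : ℝ) ≤ 576 * (n : ℝ) ^ (2 / 3 : ℝ) * Real.log n ^ (2 / 3 : ℝ) ∧
      (x : ℝ) ≤ 576 * (n : ℝ) ^ (2 / 3 : ℝ) := by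
    intro x hx
    have h1 : (x : ℝ) ≤ 8 * (firstPrime n : ℝ) ^ 2 := by exact_mod_cast hx
    have h2 : (x : ℝ) ≤ 288 * (n : ℝ) ^ (2 / 3 : ℝ) := by linarith
    refine ⟨?_, by linarith⟩
    nlinarith
  refine ⟨(alg (List.replicate n true)).toFinset, ?_, ?_, ?_, ?_, ?_⟩
  · -- the list is sorted
    have hs : (alg (List.replicate n true)).Pairwise (· < ·) :=
      List.Pairwise.filter _ (List.pairwise_lt_range)
    have h1 : (alg (List.replicate n true)).toFinset.sort (· ≤ ·) = alg (List.replicate n true) :=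
      (List.toFinset_sort _ (hs.imp fun h => ne_of_lt h)).2 (hs.imp fun h => le_of_lt h)
    rw [h1]
  · intro s hs
    have := (hmem s).1 hs
    omega
  · have := set_bound hp h4 (S := (alg (List.replicate n true)).toFinset)
      (fun m hm => ⟨((hmem m).1 hm).1, ((hmem m).1 hm).2.2⟩)
    exact (final _ (by omega)).1
  · have := set_bound hp h4 (S := (alg (List.replicate n true)).toFinset)
      (fun m hm => ⟨((hmem m).1 hm).1, ((hmem m).1 hm).2.2⟩)
    exact (final _ (by omega)).2
  · intro A hA hadm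
    exact final _ (admissible_bound hp h4 (fun m h1 h2 h3 => (hmem m).2 ⟨h2, h1, h3⟩) hA hadm)

end Pool.Agent.Results.MP_d065a3_lc.Deterministic
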